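import Pool.Agent.H.MP_8ee1cf_lc.B

set_option autoImplicit false

namespace Pool.Agent.Results.MP_8ee1cf_lc.Effective

open Pool.Agent.H.MP_8ee1cf_lc Pool.Agent.Lib.helper4.SigLP Pool.Agent.Lib.PR

attribute [local irreducible] Primrec

theorem result : ∃ f : Gr → List (List ℕ), Computable f ∧ ∀ G, TestSet (lang G) (f G) := by
  obtain ⟨f, a, b⟩ := Sig.choice (R := fun G F => (∀ w ∈ F, w ∈ lang G) ∧ ∃ T N n, Cert G F T N n)
    (.and (.ball (s_lang.comp (f := fun z : (Gr × List (List ℕ)) × List ℕ => (z.1.1, z.2)) (by fun_prop)) (by fun_prop))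
      (.ex (.ex (.ex (by apply s_cert <;> fun_prop))))) complete
  exact ⟨f, a, fun G => let ⟨c, _, _, _, d⟩ := b G; test d c⟩

end Pool.Agent.Results.MP_8ee1cf_lc.Effective
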